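import Mathlib
import Pool.Agent.H569_KT.Upper

set_option autoImplicit false

/-!
# Kneser transversals in large dimension

A flat is a `k`-transversal of a finite set `X` of points if it meets the convex hull of every
`k`-point subset of `X`. Arocha, Bracho, Montejano and Ramirez Alfonsin ask for the largest `n` such
that every set of `n` points of `ℝ^d` has a `k`-transversal flat of codimension `lam`, and
conjecture the value `(d - lam) + k + ⌈k / lam⌉ - 1`.

We show that for `1 ≤ lam < k` and all large `d` the largest `n` is `d + 2 (k - lam)`, which is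
larger than the conjectured value whenever `2 ≤ lam` and `lam + 2 ≤ k`.

Lower bound. Let `s = k - lam - 1` and `n = d + 2 (k - lam)`. The affine dependencies of `n` points
in general position form a space of dimension `r = 2 s + 1`, which gives a Gale diagram of `n`
vectors of `ℝ^r` in general position. By Ramsey's theorem for `r`-sets some `r + lam` of them are
such that all their ordered `r × r` determinants have the same sign, so they behave as points of
the moment curve of `ℝ^{2s}`: every `s` of them lie on a supporting hyperplane. This says that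
the flat through the `d - lam + 1` other points meets the convex hull of every `k` of these
`r + lam` points. Sets that are not in general position are limits of sets that are.
-/

namespace Pool.Agent.Results.MP_83f3dc_co.LargeDimension

/-- Every set of `n` points of `ℝ^d` has a `k`-transversal flat of dimension `j`, that is an affine
subspace `L` of dimension `j` which meets the convex hull of every subset `Y` of `X` with `k`
elements. -/
def EverySetHasTransversal (d j k n : ℕ) : Prop :=
  ∀ X : Finset (EuclideanSpace ℝ (Fin d)), X.card = n →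
    ∃ L : AffineSubspace ℝ (EuclideanSpace ℝ (Fin d)),
      (L : Set (EuclideanSpace ℝ (Fin d))).Nonempty ∧ Module.finrank ℝ L.direction = j ∧
      ∀ Y ⊆ X, Y.card = k →
        ((L : Set (EuclideanSpace ℝ (Fin d))) ∩
          convexHull ℝ (Y : Set (EuclideanSpace ℝ (Fin d)))).Nonempty

/-- `m` is the largest positive integer `n` such that every set of `n` points of `ℝ^d` has a
`k`-transversal flat of codimension `lam` (dimension `d - lam`). -/
def IsMaxNumber (d lam k m : ℕ) : Prop :=
  IsGreatest {n : ℕ | 0 < n ∧ EverySetHasTransversal d (d - lam) k n} m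

open H569KT

theorem lower (s lam : ℕ) : ∃ N, ∀ (d n : ℕ) (_ : n = d + 2 * s + 2) (_ : lam ≤ d)
    (_ : N ≤ n) (_ : lam + s + 1 ≤ n), EverySetHasTransversal d (d - lam) (lam + s + 1) n := by
  obtain ⟨N, hN⟩ := good_all s lam
  refine ⟨N, ?_⟩
  intro d n hn hlam hNn hkn X hX
  set eq := (X.equivFinOfCardEq hX).symm with heq
  set x : Fin n → E d := fun i => (eq i : E d) with hx
  obtain ⟨L, hL1, hL2, hL3⟩ := good_flat x (hN d n hn hlam x hNn) hkn
  refine ⟨L, hL1, Nat.eq_sub_of_add_eq hL2, ?_⟩
  intro Y hY hYc
  classical
  set Y' : Finset (Fin n) := Finset.univ.filter (fun i => x i ∈ Y) with hY'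
  have hxinj : Function.Injective x := fun a b hab => eq.injective (Subtype.ext hab)
  have himg : Y'.image x = Y := by
    ext z
    rw [Finset.mem_image]
    constructor
    · rintro ⟨i, hi, rfl⟩
      exact (Finset.mem_filter.1 hi).2
    · intro hz
      refine ⟨eq.symm ⟨z, hY hz⟩, ?_, ?_⟩
      · rw [hY', Finset.mem_filter]
        refine ⟨Finset.mem_univ _, ?_⟩
        simp only [hx, Equiv.apply_symm_apply]
        exact hz
      · simp only [hx, Equiv.apply_symm_apply]
  have hc : Y'.card = lam + s + 1 := by
    rw [← hYc, ← himg, Finset.card_image_of_injective _ hxinj]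
  have h1 := hL3 Y' hc
  have h2 : x '' (Y' : Set (Fin n)) = (Y : Set (E d)) := by
    rw [← himg, Finset.coe_image]
  rw [h2] at h1
  exact h1

theorem upper {d lam k n : ℕ} (hd : 1 ≤ d) (hl1 : 1 ≤ lam) (hld : lam ≤ d) (hlk : lam ≤ k)
    (h : EverySetHasTransversal d (d - lam) k n) : n ≤ d + 2 * (k - lam) := by
  by_contra hcon
  push Not at hcon
  have hinj : Function.Injective (mom n d) := by
    intro a b hab
    have h1 : mom n d a ⟨0, hd⟩ = mom n d b ⟨0, hd⟩ := by rw [hab]
    simp only [mom, zero_add, pow_one] at h1
    exact Fin.ext (Nat.cast_injective (R := ℝ) h1)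
  classical
  obtain ⟨L, hL1, hL2, hL3⟩ := h (Finset.univ.image (mom n d)) (by
    rw [Finset.card_image_of_injective _ hinj, Finset.card_univ, Fintype.card_fin])
  apply no_flat hl1 hlk hcon L hL1 (by rw [hL2]; exact Nat.sub_add_cancel hld)
  intro Y hY
  have h1 := hL3 (Y.image (mom n d)) (Finset.image_subset_image (Finset.subset_univ _)) (by
    rw [Finset.card_image_of_injective _ hinj, hY])
  rwa [Finset.coe_image] at h1

/-- For `1 ≤ lam < k` and all `d ≥ D(lam, k)`, the largest `n` such that every set of `n` points of
`ℝ^d` has a `k`-transversal flat of codimension `lam` is `d + 2 (k - lam)`. For `2 ≤ lam` and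
`lam + 2 ≤ k` this is larger than the conjectured `(d - lam) + k + ⌈k / lam⌉ - 1`. -/
theorem result : ∀ lam k : ℕ, 1 ≤ lam → lam < k → ∃ D : ℕ, ∀ d : ℕ, D ≤ d →
    lam < d ∧ IsMaxNumber d lam k (d + 2 * (k - lam)) ∧
      (2 ≤ lam → lam + 2 ≤ k → (d - lam) + k + ⌈(k : ℚ) / lam⌉₊ - 1 < d + 2 * (k - lam)) := by
  intro lam k hl hk
  obtain ⟨s, hs⟩ : ∃ s, k = lam + s + 1 := ⟨k - lam - 1, by omega⟩
  obtain ⟨N, hN⟩ := lower s lam
  refine ⟨max N (k + 1), ?_⟩
  intro d hd
  have hNd : N ≤ d := (le_max_left _ _).trans hd
  have hkd : k + 1 ≤ d := (le_max_right _ _).trans hd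
  refine ⟨by omega, ⟨⟨by omega, ?_⟩, ?_⟩, ?_⟩
  · have := hN d (d + 2 * (k - lam)) (by omega) (by omega) (by omega) (by omega)
    rwa [← hs] at this
  · rintro n ⟨_, hn⟩
    exact upper (by omega) hl (by omega) (by omega) hn
  · intro h2 h3
    have hc : ⌈(k : ℚ) / lam⌉₊ ≤ k - lam := by
      rw [Nat.ceil_le, div_le_iff₀ (by exact_mod_cast (by omega : 0 < lam))]
      have h4 : k ≤ (k - lam) * lam := by
        obtain ⟨a, rfl⟩ : ∃ a, lam = a + 2 := ⟨lam - 2, by omega⟩
        obtain ⟨b, rfl⟩ : ∃ b, k = a + 2 + b + 2 := ⟨k - (a + 2) - 2, by omega⟩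
        have : a + 2 + b + 2 - (a + 2) = b + 2 := by omega
        rw [this]
        nlinarith
      exact_mod_cast h4
    omega

end Pool.Agent.Results.MP_83f3dc_co.LargeDimension
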